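import Pool.Agent.Helper11_Kc.Many

/-!
# MP_042a34_an: the honeycomb inequality for partitions of thin tori into any number of cells
-/

set_option autoImplicit false

open MeasureTheory Set

namespace Pool.Agent.Results.MP_042a34_an.ManyCells

/-- The first Dirichlet eigenvalue of an open plane set `D`: the infimum of the Rayleigh quotients
of the nonzero `C¹` functions with compact support in `D`. -/
noncomputable def lam (D : Set ℂ) : ℝ :=
  sInf {r : ℝ | ∃ φ : ℂ → ℝ, ContDiff ℝ 1 φ ∧ HasCompactSupport φ ∧ tsupport φ ⊆ D ∧ φ ≠ 0 ∧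
    r = (∫ x, ‖fderiv ℝ φ x‖ ^ 2) / (∫ x, φ x ^ 2)}

/-- The open regular hexagon of area one. -/
noncomputable def hexagon : Set ℂ :=
  interior (convexHull ℝ (Set.range (fun j : Fin 6 =>
    ((Real.sqrt (2 / (3 * Real.sqrt 3)) : ℝ) : ℂ) *
      Complex.exp (2 * (Real.pi : ℂ) * Complex.I * ((j : ℕ) : ℂ) / 6))))

/-- Let `D 0, ..., D (k - 1)` be nonempty open sets of the plane, of any shapes, such that all
their translates `D j + m a + n b` by the vectors of a lattice of covolume `V = Im (conj a * b)`
are pairwise disjoint, and let `|a| ^ 2` be at most twice the area `V / k` per cell. Then some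
first Dirichlet eigenvalue `lam (D j)` times the area `V / k` per cell is at least the first
Dirichlet eigenvalue of the regular hexagon of area one. -/
theorem result (k : ℕ) (hk : 0 < k) (D : Fin k → Set ℂ) (hD : ∀ j, IsOpen (D j))
    (hne : ∀ j, (D j).Nonempty) (a b : ℂ) (hab : 0 < (starRingEnd ℂ a * b).im)
    (hdis : ∀ (i j : Fin k) (m n : ℤ), ∀ z ∈ D i, ∀ z' ∈ D j, z = z' + m * a + n * b →
      i = j ∧ m = 0 ∧ n = 0)
    (hthin : k * ‖a‖ ^ 2 ≤ 2 * (starRingEnd ℂ a * b).im) :
    ∃ j, k * lam hexagon ≤ lam (D j) * (starRingEnd ℂ a * b).im :=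
  Pool.Agent.H11Kc.k_cells hk hab hthin hD hne hdis

end Pool.Agent.Results.MP_042a34_an.ManyCells
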