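import Pool.Agent.Helper84_Hon.Final

/-!
# MP_042a34_an: the honeycomb inequality for periodic families of congruent cells of any shape
-/

set_option autoImplicit false

open MeasureTheory Set

namespace Pool.Agent.Results.MP_042a34_an.PeriodicTwoRows

/-- The first Dirichlet eigenvalue of an open plane set `D`: the infimum of the Rayleigh quotients
of the nonzero `C¹` functions with compact support in `D`. -/
noncomputable def lam (D : Set ℂ) : ℝ :=
  sInf {r : ℝ | ∃ φ : ℂ → ℝ, ContDiff ℝ 1 φ ∧ HasCompactSupport φ ∧ tsupport φ ⊆ D ∧ φ ≠ 0 ∧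
    r = (∫ x, ‖fderiv ℝ φ x‖ ^ 2) / (∫ x, φ x ^ 2)}

/-- The open regular hexagon of area one. -/
noncomputable def hexagon : Set ℂ :=
  interior (convexHull ℝ (Set.range (fun j : Fin 6 =>
    ((Real.sqrt (2 / (3 * Real.sqrt 3)) : ℝ) : ℂ) *
      Complex.exp (2 * (Real.pi : ℂ) * Complex.I * ((j : ℕ) : ℂ) / 6))))

/-- The isometry `(x, y) ↦ (s x + c, t y + d)`, for signs `s` and `t`. -/
noncomputable def iso (s t c d : ℝ) (z : ℂ) : ℂ := ⟨s * z.re + c, t * z.im + d⟩

/-- Periodic families of `card ι` congruent cells `g j (D)` of any shape, `g j` an isometry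
`(x, y) ↦ (± x + c, ± y + d)`, per period parallelogram with the periods `(l, 0)` and `(b, H)`. If
all the translates of the cells by the periods are pairwise disjoint and if every horizontal line
meets at most two of them up to translations by multiples of `(l, 0)`, then
`lam hexagon * card ι ≤ lam D * (l * H)`. -/
theorem result (ι : Type) [Fintype ι] (D : Set ℂ) (hD : IsOpen D) (hne : D.Nonempty)
    (l H b : ℝ) (hl : 0 < l) (hH : 0 < H) (s t c d : ι → ℝ)
    (hs : ∀ j, s j = 1 ∨ s j = -1) (ht : ∀ j, t j = 1 ∨ t j = -1)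
    (hdis : ∀ (j j' : ι) (m n : ℤ), ∀ z ∈ D, ∀ z' ∈ D,
      iso (s j) (t j) (c j) (d j) z =
        iso (s j') (t j') (c j') (d j') z' + m * (l : ℂ) + n * (⟨b, H⟩ : ℂ) →
      j = j' ∧ m = 0 ∧ n = 0)
    (htwo : ∀ y : ℝ, {p : ι × ℤ | ∃ z ∈ D,
      (iso (s p.1) (t p.1) (c p.1) (d p.1) z + p.2 * (⟨b, H⟩ : ℂ)).im = y}.encard ≤ 2) :
    lam hexagon * Fintype.card ι ≤ lam D * (l * H) :=
  Pool.Agent.H84Hon.per hl hH b hD hne (fun j => ⟨s j, t j, c j, d j, hs j, ht j⟩) hdis htwo

end Pool.Agent.Results.MP_042a34_an.PeriodicTwoRows
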