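import Pool.Agent.Helper14_Sm.Tcs

/-!
# MP_042a34_an: the honeycomb inequality, in the sum form, for two cells of arbitrary shapes per
period of a lattice
-/

set_option autoImplicit false

open MeasureTheory Set

namespace Pool.Agent.Results.MP_042a34_an.TwoCellsSum

/-- The first Dirichlet eigenvalue of an open plane set `D`: the infimum of the Rayleigh quotients
of the nonzero `C¹` functions with compact support in `D`. -/
noncomputable def lam (D : Set ℂ) : ℝ :=
  sInf {r : ℝ | ∃ φ : ℂ → ℝ, ContDiff ℝ 1 φ ∧ HasCompactSupport φ ∧ tsupport φ ⊆ D ∧ φ ≠ 0 ∧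
    r = (∫ x, ‖fderiv ℝ φ x‖ ^ 2) / (∫ x, φ x ^ 2)}

/-- The open regular hexagon of area one. -/
noncomputable def hexagon : Set ℂ :=
  interior (convexHull ℝ (Set.range (fun j : Fin 6 =>
    ((Real.sqrt (2 / (3 * Real.sqrt 3)) : ℝ) : ℂ) *
      Complex.exp (2 * (Real.pi : ℂ) * Complex.I * ((j : ℕ) : ℂ) / 6))))

/-- Let `D` and `D'` be two nonempty open sets of the plane, of any shapes, such that all their
translates `D + m a + n b` and `D' + m a + n b` by the vectors of a lattice are pairwise disjoint.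
Then the mean of the two first Dirichlet eigenvalues, times the area per cell (half the covolume
`Im (conj a * b)` of the lattice), is at least the first Dirichlet eigenvalue of the regular hexagon
of area one. -/
theorem result (D D' : Set ℂ) (hD : IsOpen D) (hne : D.Nonempty) (hD' : IsOpen D')
    (hne' : D'.Nonempty) (a b : ℂ) (hab : 0 < (starRingEnd ℂ a * b).im)
    (h1 : ∀ m n : ℤ, ∀ z ∈ D, ∀ z' ∈ D, z = z' + m * a + n * b → m = 0 ∧ n = 0)
    (h2 : ∀ m n : ℤ, ∀ z ∈ D', ∀ z' ∈ D', z = z' + m * a + n * b → m = 0 ∧ n = 0)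
    (h12 : ∀ m n : ℤ, ∀ z ∈ D, ∀ z' ∈ D', z ≠ z' + m * a + n * b) :
    4 * lam hexagon ≤ (lam D + lam D') * (starRingEnd ℂ a * b).im :=
  Pool.Agent.H14Sm.two_cells_sum hab hD hne hD' hne' h1 h2 h12

end Pool.Agent.Results.MP_042a34_an.TwoCellsSum
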