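import Pool.Agent.Helper76_Hex.Brick

/-!
# MP_042a34_an: the limit in the hexagonal conjecture for sums exists and is universal
-/

set_option autoImplicit false

open MeasureTheory Filter Topology Set

noncomputable section

namespace Pool.Agent.Results.MP_042a34_an.UniversalLimit

/-- The first Dirichlet eigenvalue of an open plane set `D`: the infimum of the Rayleigh quotients
of the nonzero `C¹` functions with compact support in `D`. -/
def lam (D : Set ℂ) : ℝ :=
  sInf {r : ℝ | ∃ φ : ℂ → ℝ, ContDiff ℝ 1 φ ∧ HasCompactSupport φ ∧ tsupport φ ⊆ D ∧ φ ≠ 0 ∧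
    r = (∫ x, ‖fderiv ℝ φ x‖ ^ 2) / (∫ x, φ x ^ 2)}

/-- The infimum of the mean first Dirichlet eigenvalue over the `k`-partitions of `Ω` (families of
`k` nonempty, pairwise disjoint open subsets of `Ω`). -/
def Lsum (k : ℕ) (Ω : Set ℂ) : ℝ :=
  sInf {e : ℝ | ∃ P : Fin k → Set ℂ, (∀ i, IsOpen (P i) ∧ (P i).Nonempty ∧ P i ⊆ Ω) ∧
    Pairwise (Function.onFun Disjoint P) ∧ e = (∑ i, lam (P i)) / (k : ℝ)}

/-- The open unit square. -/
def unitSquare : Set ℂ := {z | 0 < z.re ∧ z.re < 1 ∧ 0 < z.im ∧ z.im < 1}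

/-- The open regular hexagon of area one. -/
def hexagon : Set ℂ :=
  interior (convexHull ℝ (Set.range (fun j : Fin 6 =>
    ((Real.sqrt (2 / (3 * Real.sqrt 3)) : ℝ) : ℂ) *
      Complex.exp (2 * (Real.pi : ℂ) * Complex.I * ((j : ℕ) : ℂ) / 6))))

/-- There is a universal constant `c`, `0 < c ≤ lam hexagon`, such that for every nonempty bounded
open plane set `Ω` the limit of `|Ω| Lsum k Ω / k` as `k → ∞` exists and is `c`; moreover `c` is the
infimum over all `k ≥ 1` of `Lsum k Q / k` for the unit square `Q`. -/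
theorem result : ∃ c : ℝ, 0 < c ∧ c ≤ lam hexagon ∧
    IsGLB {x : ℝ | ∃ k : ℕ, 1 ≤ k ∧ x = Lsum k unitSquare / k} c ∧
    ∀ Ω : Set ℂ, IsOpen Ω → Ω.Nonempty → Bornology.IsBounded Ω →
      Tendsto (fun k : ℕ => (volume Ω).toReal * Lsum k Ω / k) atTop (𝓝 c) :=
  ⟨H76Hex.c1, H76Hex.c1_pos, H76Hex.c1_le_hexagon, H76Hex.c1_glb,
    fun _ hΩ hne hb => H76Hex.tendsto_main hΩ hne hb⟩

end Pool.Agent.Results.MP_042a34_an.UniversalLimit
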